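import Mathlib

set_option autoImplicit false

/-!
# The boundedness locus of the McMullen-type family `z ^ n + a / z ^ n + b` near its spine

With `b` chosen such that one critical value is a fixed critical point, the boundedness locus `M n`
is, for all large `n`, contained in the `ε`-neighbourhoods of both the spine `S n` and of the limiting
cardioid.

Idea of the proof. All parameters in `M n` satisfy `‖a‖ < 1`. If the free critical value `v` has
`‖v‖ ≥ 1 + δ` then its image is large and the orbit escapes. If `‖v‖ ≤ 1 - δ` and `‖a‖ ≥ η` then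
the term `a / v ^ n` is large and the orbit escapes, too.
-/

open Filter Topology Set Metric

namespace Pool.Agent.Results.MP_9ed304_an.BoundednessLocusNearSpine

/-- `|a|^(1/2n) e^(iψ/2n)`, where `ψ` is the principal argument of `a`. -/
noncomputable def root (n : ℕ) (a : ℂ) : ℂ :=
  ((‖a‖ ^ (1 / (2 * n) : ℝ) : ℝ) : ℂ) * Complex.exp (Complex.I * (Complex.arg a / (2 * n)))

/-- The principal square root. -/
noncomputable def sqrt (a : ℂ) : ℂ := a ^ (1 / 2 : ℂ)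

/-- The parameter `b = |a|^(1/2n) e^(iψ/2n) - 2 √a`. -/
noncomputable def b (n : ℕ) (a : ℂ) : ℂ := root n a - 2 * sqrt a

/-- The rational map `z ↦ z ^ n + a / z ^ n + b`, for `z ≠ 0`. -/
noncomputable def r (n : ℕ) (a z : ℂ) : ℂ := z ^ n + a / z ^ n + b n a

/-- The free critical value `v₋ = b - 2 √a`. -/
noncomputable def vMinus (n : ℕ) (a : ℂ) : ℂ := b n a - 2 * sqrt a

/-- The forward orbit of `z` under the rational map is bounded: it never meets the pole `0` (whose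
image is the fixed point `∞`) and stays in a bounded part of the plane. -/
def BoundedOrbit (n : ℕ) (a z : ℂ) : Prop :=
  ∃ u : ℕ → ℂ, u 0 = z ∧ (∀ k, u k ≠ 0 ∧ u (k + 1) = r n a (u k)) ∧ ∃ R : ℝ, ∀ k, ‖u k‖ ≤ R

/-- The boundedness locus. -/
def M (n : ℕ) : Set ℂ := {a | a ≠ 0 ∧ BoundedOrbit n a (vMinus n a)}

/-- The spine. -/
def spine (n : ℕ) : Set ℂ :=
  {a | ∃ θ ∈ Icc (0 : ℝ) (2 * Real.pi), a = 1 / 16 * (root n a + Complex.exp (Complex.I * θ)) ^ 2}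

/-- The limiting cardioid. -/
def cardioid : Set ℂ :=
  {a | ∃ θ ∈ Icc (0 : ℝ) (2 * Real.pi), a = 1 / 16 * (1 + Complex.exp (Complex.I * θ)) ^ 2}

theorem root_eq {n : ℕ} {a : ℂ} (ha : a ≠ 0) : root n a = Complex.exp (Complex.log a / (2 * n)) := by
  have h1 : 0 < ‖a‖ := norm_pos_iff.2 ha
  unfold root
  rw [Real.rpow_def_of_pos h1]
  push_cast
  rw [← Complex.exp_add]
  congr 1
  rw [Complex.log]
  ring

theorem sqrt_sq (a : ℂ) : sqrt a ^ 2 = a := by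
  unfold sqrt
  simp

theorem norm_root {n : ℕ} {a : ℂ} : ‖root n a‖ = ‖a‖ ^ (1 / (2 * n) : ℝ) := by
  unfold root
  rw [norm_mul, Complex.norm_real, Real.norm_of_nonneg (by positivity)]
  have : Complex.I * (Complex.arg a / (2 * n)) = ((Complex.arg a / (2 * n) : ℝ) : ℂ) * Complex.I := by
    push_cast; ring
  rw [this, Complex.norm_exp_ofReal_mul_I, mul_one]

theorem norm_sqrt_sq (a : ℂ) : ‖sqrt a‖ ^ 2 = ‖a‖ := by
  rw [← norm_pow, sqrt_sq]

theorem exists_angle {w : ℂ} (hw : ‖w‖ = 1) :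
    ∃ θ ∈ Icc (0 : ℝ) (2 * Real.pi), Complex.exp (Complex.I * θ) = w := by
  have hpi := Real.pi_pos
  have h1 : Complex.exp (Complex.I * (Complex.arg w : ℝ)) = w := by
    have := Complex.norm_mul_exp_arg_mul_I w
    rw [hw] at this
    rw [mul_comm]
    simpa using this
  rcases le_or_gt 0 (Complex.arg w) with h | h
  · exact ⟨Complex.arg w, ⟨h, by linarith [Complex.arg_le_pi w]⟩, h1⟩
  · refine ⟨Complex.arg w + 2 * Real.pi, ⟨by linarith [Complex.neg_pi_lt_arg w], by linarith⟩, ?_⟩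
    push_cast
    rw [mul_add, Complex.exp_add, h1]
    have : Complex.I * (2 * Real.pi) = 2 * Real.pi * Complex.I := by ring
    rw [this, Complex.exp_two_pi_mul_I, mul_one]

/-- points of the spine -/
theorem mem_spine {n : ℕ} {a : ℂ} (h : ‖root n a - 4 * sqrt a‖ = 1) : a ∈ spine n := by
  have h1 : ‖4 * sqrt a - root n a‖ = 1 := by rw [norm_sub_rev]; exact h
  obtain ⟨θ, hθ, hw⟩ := exists_angle h1
  refine ⟨θ, hθ, ?_⟩
  rw [hw]
  calc a = sqrt a ^ 2 := (sqrt_sq a).symm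
    _ = 1 / 16 * (root n a + (4 * sqrt a - root n a)) ^ 2 := by ring

/-- a sequence that doubles is unbounded -/
theorem not_bounded {n : ℕ} {a : ℂ} {A : ℝ} (hA : 1 ≤ A)
    (hgrow : ∀ z : ℂ, A ≤ ‖z‖ → 2 * ‖z‖ ≤ ‖r n a z‖) {u : ℕ → ℂ}
    (hu : ∀ k, u k ≠ 0 ∧ u (k + 1) = r n a (u k)) {k0 : ℕ} (hk : A ≤ ‖u k0‖) :
    ¬ ∃ R : ℝ, ∀ k, ‖u k‖ ≤ R := by
  rintro ⟨R, hR⟩
  have key : ∀ j : ℕ, A ≤ ‖u (k0 + j)‖ ∧ (2 : ℝ) ^ j ≤ ‖u (k0 + j)‖ := by
    intro j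
    induction j with
    | zero => exact ⟨hk, by simpa using hA.trans hk⟩
    | succ j ih =>
      have h1 := hgrow _ ih.1
      rw [← (hu (k0 + j)).2] at h1
      have h2 : k0 + j + 1 = k0 + (j + 1) := by ring
      rw [h2] at h1
      refine ⟨by linarith [ih.1], ?_⟩
      rw [pow_succ]
      linarith [ih.2]
  obtain ⟨j, hj⟩ := pow_unbounded_of_one_lt R (one_lt_two)
  have := (key j).2
  have := hR (k0 + j)
  linarith

theorem norm_r_ge1 {n : ℕ} {a z : ℂ} :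
    ‖z‖ ^ n - ‖a‖ / ‖z‖ ^ n - ‖b n a‖ ≤ ‖r n a z‖ := by
  unfold r
  have h1 : ‖z ^ n‖ ≤ ‖z ^ n + a / z ^ n + b n a‖ + ‖a / z ^ n‖ + ‖b n a‖ := by
    calc ‖z ^ n‖ = ‖(z ^ n + a / z ^ n + b n a) - a / z ^ n - b n a‖ := by congr 1; ring
      _ ≤ ‖(z ^ n + a / z ^ n + b n a) - a / z ^ n‖ + ‖b n a‖ := norm_sub_le _ _
      _ ≤ _ := by gcongr; exact norm_sub_le _ _
  rw [norm_pow, norm_div, norm_pow] at h1
  linarith

theorem norm_r_ge2 {n : ℕ} {a z : ℂ} :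
    ‖a‖ / ‖z‖ ^ n - ‖z‖ ^ n - ‖b n a‖ ≤ ‖r n a z‖ := by
  unfold r
  have h1 : ‖a / z ^ n‖ ≤ ‖z ^ n + a / z ^ n + b n a‖ + ‖z ^ n‖ + ‖b n a‖ := by
    calc ‖a / z ^ n‖ = ‖(z ^ n + a / z ^ n + b n a) - z ^ n - b n a‖ := by congr 1; ring
      _ ≤ ‖(z ^ n + a / z ^ n + b n a) - z ^ n‖ + ‖b n a‖ := norm_sub_le _ _
      _ ≤ _ := by gcongr; exact norm_sub_le _ _
  rw [norm_pow, norm_div, norm_pow] at h1
  linarith

theorem norm_b_le (n : ℕ) (a : ℂ) : ‖b n a‖ ≤ ‖root n a‖ + 2 * ‖sqrt a‖ := by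
  unfold b
  refine (norm_sub_le _ _).trans ?_
  rw [norm_mul]
  norm_num

/-- parameters of the boundedness locus are in the unit disc -/
theorem norm_lt_one {n : ℕ} (hn : 3 ≤ n) {a : ℂ} (ha : a ∈ M n) : ‖a‖ < 1 := by
  obtain ⟨ha0, u, hu0, hu, hR⟩ := ha
  by_contra hcon
  push Not at hcon
  set x : ℝ := ‖sqrt a‖ with hx
  have hx2 : x ^ 2 = ‖a‖ := norm_sqrt_sq a
  have hx0 : 0 ≤ x := norm_nonneg _
  have hx1 : 1 ≤ x := by nlinarith
  have hroot : ‖root n a‖ ≤ x := by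
    rw [norm_root, ← hx2]
    have h1 : (x ^ 2) ^ (1 / (2 * n) : ℝ) ≤ (x ^ 2) ^ (1 / 2 : ℝ) := by
      apply Real.rpow_le_rpow_of_exponent_le (by nlinarith)
      have : (1 : ℝ) ≤ n := by exact_mod_cast (by omega : 1 ≤ n)
      apply one_div_le_one_div_of_le (by norm_num)
      linarith
    have h2 : (x ^ 2) ^ (1 / 2 : ℝ) = x := by
      rw [← Real.sqrt_eq_rpow, Real.sqrt_sq hx0]
    linarith
  have hb : ‖b n a‖ ≤ 3 * x := by
    have := norm_b_le n a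
    linarith
  have hgrow : ∀ z : ℂ, 3 * x ≤ ‖z‖ → 2 * ‖z‖ ≤ ‖r n a z‖ := by
    intro z hz
    have hz3 : 3 ≤ ‖z‖ := by linarith
    have h1 := norm_r_ge1 (n := n) (a := a) (z := z)
    have h2 : ‖z‖ ^ 3 ≤ ‖z‖ ^ n := pow_le_pow_right₀ (by linarith) hn
    have h3 : ‖a‖ / ‖z‖ ^ n ≤ x ^ 2 := by
      rw [← hx2]
      apply div_le_self (by positivity)
      exact one_le_pow₀ (by linarith)
    have h4 : 9 * x ^ 2 * ‖z‖ ≤ ‖z‖ ^ 3 := by
      have : (3 * x) ^ 2 ≤ ‖z‖ ^ 2 := pow_le_pow_left₀ (by positivity) hz 2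
      nlinarith
    have h5 : 3 * x ^ 2 ≤ x ^ 2 * ‖z‖ := by nlinarith
    have h6 : ‖z‖ ≤ x ^ 2 * ‖z‖ := by nlinarith
    nlinarith
  have hv : 3 * x ≤ ‖u 0‖ := by
    rw [hu0]
    have h1 : vMinus n a = root n a - 4 * sqrt a := by unfold vMinus b; ring
    rw [h1]
    have h2 : ‖4 * sqrt a‖ ≤ ‖root n a - 4 * sqrt a‖ + ‖root n a‖ := by
      calc ‖4 * sqrt a‖ = ‖root n a - (root n a - 4 * sqrt a)‖ := by congr 1; ring
        _ ≤ ‖root n a‖ + ‖root n a - 4 * sqrt a‖ := norm_sub_le _ _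
        _ = _ := by ring
    rw [norm_mul] at h2
    norm_num at h2
    linarith
  exact not_bounded (A := 3 * x) (by linarith) hgrow hu hv hR

theorem vMinus_eq (n : ℕ) (a : ℂ) : vMinus n a = root n a - 4 * sqrt a := by unfold vMinus b; ring

theorem norm_b_le3 {n : ℕ} {a : ℂ} (ha : ‖a‖ < 1) : ‖b n a‖ ≤ 3 := by
  have h1 := norm_b_le n a
  have h2 : ‖root n a‖ ≤ 1 := by
    rw [norm_root]
    exact Real.rpow_le_one (norm_nonneg _) ha.le (by positivity)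
  have h3 : ‖sqrt a‖ ≤ 1 := by
    have h4 := norm_sqrt_sq a
    have h5 := norm_nonneg (sqrt a)
    nlinarith
  linarith

theorem grow3 {n : ℕ} (hn : 3 ≤ n) {a : ℂ} (ha : ‖a‖ < 1) (z : ℂ) (hz : 3 ≤ ‖z‖) :
    2 * ‖z‖ ≤ ‖r n a z‖ := by
  have h1 := norm_r_ge1 (n := n) (a := a) (z := z)
  have h2 : ‖z‖ ^ 3 ≤ ‖z‖ ^ n := pow_le_pow_right₀ (by linarith) hn
  have h3 : ‖a‖ / ‖z‖ ^ n ≤ 1 := by
    refine (div_le_self (by positivity) ?_).trans ha.le
    exact one_le_pow₀ (by linarith)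
  have h4 := norm_b_le3 (n := n) ha
  have h5 : 9 * ‖z‖ ≤ ‖z‖ ^ 3 := by nlinarith [sq_nonneg (‖z‖), mul_self_nonneg (‖z‖ - 3)]
  linarith

/-- The free critical value of a parameter in the boundedness locus has modulus close to one. -/
theorem near_one {δ η : ℝ} (hδ : 0 < δ) (hδ1 : δ < 1) (hη : 0 < η) : ∃ N : ℕ, ∀ n ≥ N, ∀ a ∈ M n,
    η ≤ ‖a‖ → |‖root n a - 4 * sqrt a‖ - 1| < δ := by
  obtain ⟨N1, hN1⟩ := pow_unbounded_of_one_lt 7 (by linarith : (1 : ℝ) < 1 + δ)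
  obtain ⟨N2, hN2⟩ := exists_pow_lt_of_lt_one (by positivity : (0 : ℝ) < η / 7)
    (by linarith : 1 - δ < 1)
  refine ⟨max 3 (max N1 N2), fun n hn a ha haη => ?_⟩
  have hn3 : 3 ≤ n := (le_max_left _ _).trans hn
  have hnN1 : N1 ≤ n := ((le_max_left _ _).trans (le_max_right _ _)).trans hn
  have hnN2 : N2 ≤ n := ((le_max_right _ _).trans (le_max_right _ _)).trans hn
  have ha1 := norm_lt_one hn3 ha
  have hb := norm_b_le3 (n := n) ha1
  obtain ⟨ha0, u, hu0, hu, hR⟩ := ha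
  rw [vMinus_eq] at hu0
  have h3 : ‖u 1‖ < 3 := by
    by_contra hcon
    push Not at hcon
    exact not_bounded (A := 3) (by norm_num) (grow3 hn3 ha1) hu hcon hR
  have hu1 := (hu 0).2
  rw [zero_add] at hu1
  rw [hu1] at h3
  have hpos : 0 < ‖u 0‖ := norm_pos_iff.2 (hu 0).1
  rw [← hu0, abs_lt]
  constructor
  · by_contra hcon
    push Not at hcon
    have h4 : ‖u 0‖ ≤ 1 - δ := by linarith
    have h5 : ‖u 0‖ ^ n ≤ (1 - δ) ^ n := pow_le_pow_left₀ (norm_nonneg _) h4 n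
    have h6 : (1 - δ) ^ n ≤ (1 - δ) ^ N2 := pow_le_pow_of_le_one (by linarith) (by linarith) hnN2
    have h7 : ‖u 0‖ ^ n < η / 7 := by linarith
    have h8 : 7 < ‖a‖ / ‖u 0‖ ^ n := by
      rw [lt_div_iff₀ (by positivity)]
      linarith
    have h9 : ‖u 0‖ ^ n ≤ 1 := pow_le_one₀ (norm_nonneg _) (by linarith)
    have h10 := norm_r_ge2 (n := n) (a := a) (z := u 0)
    linarith
  · by_contra hcon
    push Not at hcon
    have h4 : 1 + δ ≤ ‖u 0‖ := by linarith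
    have h5 : (1 + δ) ^ n ≤ ‖u 0‖ ^ n := pow_le_pow_left₀ (by linarith) h4 n
    have h6 : (1 + δ) ^ N1 ≤ (1 + δ) ^ n := pow_le_pow_right₀ (by linarith) hnN1
    have h9 : ‖a‖ / ‖u 0‖ ^ n ≤ 1 := by
      refine (div_le_self (by positivity) ?_).trans ha1.le
      exact one_le_pow₀ (by linarith)
    have h10 := norm_r_ge1 (n := n) (a := a) (z := u 0)
    linarith

/-- the roots converge to one uniformly -/
theorem root_near {δ η : ℝ} (hδ : 0 < δ) (hη : 0 < η) : ∃ N : ℕ, ∀ n ≥ N, ∀ a : ℂ,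
    η ≤ ‖a‖ → ‖a‖ ≤ 4 → ‖root n a - 1‖ < δ := by
  set B : ℝ := |Real.log η| + Real.log 4 + Real.pi with hB
  have hl4 : 0 < Real.log 4 := Real.log_pos (by norm_num)
  have hB0 : 0 < B := by have := Real.pi_pos; positivity
  obtain ⟨N, hN⟩ := exists_nat_gt (max B (B / δ))
  refine ⟨N, fun n hn a h1 h2 => ?_⟩
  have ha0 : a ≠ 0 := by
    rintro rfl
    rw [norm_zero] at h1
    linarith
  have hnB : max B (B / δ) < n := hN.trans_le (by exact_mod_cast hn)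
  have hnB1 : B < n := (le_max_left _ _).trans_lt hnB
  have hnB2 : B / δ < n := (le_max_right _ _).trans_lt hnB
  have hn0 : (0 : ℝ) < n := hB0.trans hnB1
  have hlog : ‖Complex.log a‖ ≤ B := by
    have h3 : ‖Complex.log a‖ ≤ |Real.log ‖a‖| + |Complex.arg a| := by
      have := Complex.norm_le_abs_re_add_abs_im (Complex.log a)
      rwa [Complex.log_re, Complex.log_im] at this
    have h4 : |Real.log ‖a‖| ≤ |Real.log η| + Real.log 4 := by
      have h5 : Real.log η ≤ Real.log ‖a‖ := Real.log_le_log hη h1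
      have h6 : Real.log ‖a‖ ≤ Real.log 4 := Real.log_le_log (hη.trans_le h1) h2
      have h7 := neg_abs_le (Real.log η)
      have h8 := abs_nonneg (Real.log η)
      rw [abs_le]
      constructor <;> linarith
    have h5 := Complex.abs_arg_le_pi a
    linarith
  rw [root_eq ha0]
  have h6 : ‖Complex.log a / (2 * n)‖ ≤ B / (2 * n) := by
    rw [norm_div, norm_mul, Complex.norm_natCast]
    norm_num
    gcongr
  have h7 : B / (2 * n) ≤ 1 := by
    rw [div_le_one (by positivity)]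
    linarith
  have h8 := Complex.norm_exp_sub_one_le (h6.trans h7)
  refine h8.trans_lt ?_
  rw [div_lt_iff₀ hδ] at hnB2
  calc 2 * ‖Complex.log a / (2 * n)‖ ≤ 2 * (B / (2 * n)) := by gcongr
    _ = B / n := by field_simp
    _ < δ := by
      rw [div_lt_iff₀ hn0]
      linarith

/-- The inclusion in the neighbourhood of the cardioid. -/
theorem near_cardioid {ε : ℝ} (hε : 0 < ε) : ∃ N : ℕ, ∀ n ≥ N, M n ⊆ thickening ε cardioid := by
  obtain ⟨δ, hδ, hδ4, hδε⟩ : ∃ δ : ℝ, 0 < δ ∧ δ ≤ 1 / 4 ∧ δ < ε :=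
    ⟨min (1 / 4) (ε / 2), by positivity, min_le_left _ _, (min_le_right _ _).trans_lt (by linarith)⟩
  obtain ⟨N1, hN1⟩ := near_one hδ (by linarith) hε
  obtain ⟨N2, hN2⟩ := root_near hδ hε
  refine ⟨max 3 (max N1 N2), fun n hn a ha => ?_⟩
  have hn3 : 3 ≤ n := (le_max_left _ _).trans hn
  have hnN1 : N1 ≤ n := ((le_max_left _ _).trans (le_max_right _ _)).trans hn
  have hnN2 : N2 ≤ n := ((le_max_right _ _).trans (le_max_right _ _)).trans hn
  have ha1 := norm_lt_one hn3 ha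
  rw [mem_thickening_iff]
  rcases lt_or_ge ‖a‖ ε with hlt | hge
  · refine ⟨0, ⟨Real.pi, ⟨Real.pi_pos.le, by linarith [Real.pi_pos]⟩, ?_⟩, by simpa using hlt⟩
    rw [mul_comm Complex.I, Complex.exp_pi_mul_I]
    ring
  · have h1 := hN1 n hnN1 a ha hge
    have h2 := hN2 n hnN2 a hge (by linarith)
    set w : ℂ := 4 * sqrt a - 1 with hw
    have h3 : |‖w‖ - 1| < 2 * δ := by
      have h4 : |‖w‖ - ‖root n a - 4 * sqrt a‖| ≤ ‖root n a - 1‖ := by
        have h5 := abs_norm_sub_norm_le w (4 * sqrt a - root n a)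
        rw [norm_sub_rev (4 * sqrt a) (root n a)] at h5
        refine h5.trans (le_of_eq ?_)
        congr 1
        rw [hw]; ring
      calc |‖w‖ - 1| = |(‖w‖ - ‖root n a - 4 * sqrt a‖) + (‖root n a - 4 * sqrt a‖ - 1)| := by
            congr 1; ring
        _ ≤ |‖w‖ - ‖root n a - 4 * sqrt a‖| + |‖root n a - 4 * sqrt a‖ - 1| := abs_add_le _ _
        _ < 2 * δ := by linarith
    rw [abs_lt] at h3
    have hw0 : 0 < ‖w‖ := by linarith
    have hwn : (‖w‖ : ℂ) ≠ 0 := by exact_mod_cast hw0.ne'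
    obtain ⟨θ, hθ, hθw⟩ := exists_angle (w := w / ‖w‖) (by
      rw [norm_div, Complex.norm_real, norm_norm, div_self hw0.ne'])
    refine ⟨1 / 16 * (1 + Complex.exp (Complex.I * θ)) ^ 2, ⟨θ, hθ, rfl⟩, ?_⟩
    rw [hθw, dist_eq_norm]
    have h5 : a = 1 / 16 * (1 + w) ^ 2 := by
      rw [hw]
      have := sqrt_sq a
      linear_combination -this
    have h6 : a - 1 / 16 * (1 + w / ‖w‖) ^ 2 = 1 / 16 * ((w - w / ‖w‖) * (2 + w + w / ‖w‖)) := by
      conv_lhs => rw [h5]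
      ring
    rw [h6, norm_mul, norm_mul]
    have h7 : ‖w - w / ‖w‖‖ ≤ 2 * δ := by
      have h8 : w - w / ‖w‖ = w / ‖w‖ * ((‖w‖ - 1 : ℝ) : ℂ) := by
        push_cast
        field_simp
      rw [h8, norm_mul, norm_div, Complex.norm_real, Complex.norm_real, norm_norm,
        div_self hw0.ne', one_mul, Real.norm_eq_abs, abs_le]
      constructor <;> linarith
    have h8 : ‖2 + w + w / ‖w‖‖ ≤ 2 + 3 / 2 + 1 := by
      refine (norm_add_le _ _).trans ?_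
      have h9 : ‖w / (‖w‖ : ℂ)‖ = 1 := by
        rw [norm_div, Complex.norm_real, norm_norm, div_self hw0.ne']
      have h10 := norm_add_le (2 : ℂ) w
      rw [h9]
      norm_num at h10 ⊢
      linarith
    have h9 : ‖(1 / 16 : ℂ)‖ = 1 / 16 := by norm_num
    rw [h9]
    have h11 : ‖w - w / ‖w‖‖ * ‖2 + w + w / ‖w‖‖ ≤ 2 * δ * (2 + 3 / 2 + 1) := by gcongr
    linarith

theorem sqrt_scale {T : ℝ} (hT : 0 < T) {a : ℂ} (ha : a ≠ 0) :
    sqrt (((T ^ 2 : ℝ) : ℂ) * a) = T * sqrt a := by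
  unfold sqrt
  have hT2 : 0 < T ^ 2 := by positivity
  have h0 : ((T ^ 2 : ℝ) : ℂ) * a ≠ 0 := mul_ne_zero (by exact_mod_cast hT2.ne') ha
  rw [Complex.cpow_def_of_ne_zero h0, Complex.cpow_def_of_ne_zero ha,
    Complex.log_ofReal_mul hT2 ha, Real.log_pow]
  have h1 : (T : ℂ) = Complex.exp ((Real.log T : ℝ) : ℂ) := by
    rw [← Complex.ofReal_exp, Real.exp_log hT]
  conv_rhs => rw [h1]
  rw [← Complex.exp_add]
  congr 1
  push_cast
  ring

theorem root_scale {n : ℕ} {τ : ℝ} (hτ : 0 < τ) (a : ℂ) :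
    root n ((τ : ℝ) * a) = ((τ ^ (1 / (2 * n) : ℝ) : ℝ) : ℂ) * root n a := by
  unfold root
  rw [Complex.arg_real_mul a hτ, norm_mul, Complex.norm_real, Real.norm_of_nonneg hτ.le,
    Real.mul_rpow hτ.le (norm_nonneg _)]
  push_cast
  ring

theorem le_of_sq_le_sq' {x y : ℝ} (h : x ^ 2 ≤ y ^ 2) (hy : 0 ≤ y) : x ≤ y :=
  (abs_le_of_sq_le_sq' h hy).2

theorem normSq_sub (T : ℝ) (s : ℂ) : ‖1 - 4 * (T : ℂ) * s‖ ^ 2 =
    1 + 8 * T * (2 * T * ‖s‖ ^ 2 - s.re) := by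
  rw [← Complex.normSq_eq_norm_sq, ← Complex.normSq_eq_norm_sq, Complex.normSq_apply,
    Complex.normSq_apply]
  simp
  ring

/-- parameters that are not close to zero have points of the spine nearby -/
theorem near_spine_large {ε η : ℝ} (hε : 0 < ε) (hη : 0 < η) : ∃ N : ℕ, ∀ n ≥ N, ∀ a ∈ M n,
    η ≤ ‖a‖ → ∃ a' ∈ spine n, dist a a' < ε := by
  obtain ⟨κ, hκ, hκ2, hκε⟩ : ∃ κ : ℝ, 0 < κ ∧ κ ≤ 1 / 2 ∧ 3 * κ < ε :=
    ⟨min (1 / 2) (ε / 4), by positivity, min_le_left _ _, by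
      have := min_le_right (1 / 2) (ε / 4); linarith⟩
  obtain ⟨δ, hδ, hδ4, hδκ⟩ : ∃ δ : ℝ, 0 < δ ∧ δ ≤ 1 / 4 ∧ δ ≤ κ * η :=
    ⟨min (1 / 4) (κ * η), by positivity, min_le_left _ _, min_le_right _ _⟩
  obtain ⟨N1, hN1⟩ := near_one hδ (by linarith) hη
  obtain ⟨N2, hN2⟩ := root_near hδ (η := η / 4) (by positivity)
  refine ⟨max 3 (max N1 N2), fun n hn a ha haη => ?_⟩
  have hn3 : 3 ≤ n := (le_max_left _ _).trans hn
  have hnN1 : N1 ≤ n := ((le_max_left _ _).trans (le_max_right _ _)).trans hn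
  have hnN2 : N2 ≤ n := ((le_max_right _ _).trans (le_max_right _ _)).trans hn
  have ha1 := norm_lt_one hn3 ha
  have ha0 : a ≠ 0 := ha.1
  set s : ℂ := sqrt a with hs
  have hs2 : ‖s‖ ^ 2 = ‖a‖ := norm_sqrt_sq a
  have hroot : ∀ T : ℝ, 1 / 2 ≤ T → T ≤ 3 / 2 → ‖root n (((T ^ 2 : ℝ) : ℂ) * a) - 1‖ < δ := by
    intro T h1 h2
    have h3 : ‖((T ^ 2 : ℝ) : ℂ) * a‖ = T ^ 2 * ‖a‖ := by
      rw [norm_mul, Complex.norm_real, Real.norm_of_nonneg (by positivity)]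
    have h4 : 1 / 4 ≤ T ^ 2 := by nlinarith
    have h5 : T ^ 2 ≤ 9 / 4 := by nlinarith
    have h6 : 1 / 4 * η ≤ T ^ 2 * ‖a‖ := by gcongr
    have h7 : T ^ 2 * ‖a‖ ≤ 9 / 4 * 1 := by gcongr
    apply hN2 n hnN2
    · rw [h3]; linarith
    · rw [h3]; linarith
  have hG : ∀ T : ℝ, 1 / 2 ≤ T → T ≤ 3 / 2 →
      |‖root n (((T ^ 2 : ℝ) : ℂ) * a) - 4 * sqrt (((T ^ 2 : ℝ) : ℂ) * a)‖ -
        ‖1 - 4 * (T : ℂ) * s‖| < δ := by
    intro T h1 h2
    rw [sqrt_scale (by linarith) ha0]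
    refine (abs_norm_sub_norm_le _ _).trans_lt ?_
    refine lt_of_eq_of_lt ?_ (hroot T h1 h2)
    congr 1
    ring
  have hm : |‖1 - 4 * ((1 : ℝ) : ℂ) * s‖ - 1| < 2 * δ := by
    have h1 := hG 1 (by norm_num) (by norm_num)
    have h2 := hN1 n hnN1 a ha haη
    have h3 : (((1 : ℝ) ^ 2 : ℝ) : ℂ) * a = a := by norm_num
    rw [h3] at h1
    rw [abs_lt] at h1 h2 ⊢
    constructor <;> linarith
  have hc : |2 * ‖s‖ ^ 2 - s.re| ≤ 5 / 8 * δ := by
    have h1 := normSq_sub 1 s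
    rw [abs_lt] at hm
    have h2 : (‖1 - 4 * ((1 : ℝ) : ℂ) * s‖ - 1) * (‖1 - 4 * ((1 : ℝ) : ℂ) * s‖ + 1) =
        8 * (2 * ‖s‖ ^ 2 - s.re) := by
      have : (‖1 - 4 * ((1 : ℝ) : ℂ) * s‖ - 1) * (‖1 - 4 * ((1 : ℝ) : ℂ) * s‖ + 1) =
        ‖1 - 4 * ((1 : ℝ) : ℂ) * s‖ ^ 2 - 1 := by ring
      rw [this, h1]; ring
    have h3 : |(‖1 - 4 * ((1 : ℝ) : ℂ) * s‖ - 1) * (‖1 - 4 * ((1 : ℝ) : ℂ) * s‖ + 1)| ≤
        2 * δ * (5 / 2) := by
      rw [abs_mul]
      apply mul_le_mul _ _ (abs_nonneg _) (by positivity)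
      · rw [abs_le]; constructor <;> linarith
      · rw [abs_le]; constructor <;> linarith
    rw [h2, abs_mul, abs_of_pos (by norm_num : (0 : ℝ) < 8)] at h3
    linarith
  rw [abs_le] at hc
  rw [hs2] at hc
  set G : ℝ → ℝ := fun T => ‖root n (((T ^ 2 : ℝ) : ℂ) * a) - 4 * sqrt (((T ^ 2 : ℝ) : ℂ) * a)‖ with hGdef
  have hcont : ContinuousOn G (Icc (1 - κ) (1 + κ)) := by
    have h1 : ContinuousOn (fun T : ℝ => ‖(((T ^ 2) ^ (1 / (2 * n) : ℝ) : ℝ) : ℂ) * root n a -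
        4 * ((T : ℂ) * sqrt a)‖) (Icc (1 - κ) (1 + κ)) := by
      apply Continuous.continuousOn
      apply Continuous.norm
      apply Continuous.sub
      · apply Continuous.mul _ continuous_const
        apply Complex.continuous_ofReal.comp
        apply Continuous.rpow_const (by fun_prop)
        intro x
        right
        positivity
      · fun_prop
    refine h1.congr ?_
    intro T hT
    have hT0 : 0 < T := by linarith [hT.1]
    simp only [hGdef]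
    rw [sqrt_scale hT0 ha0, root_scale (by positivity)]
  have hplus : 1 ≤ G (1 + κ) := by
    have h1 := hG (1 + κ) (by linarith) (by linarith)
    have h2 := normSq_sub (1 + κ) s
    rw [hs2] at h2
    have h3 : κ * ‖a‖ ≤ 2 * (1 + κ) * ‖a‖ - s.re := by nlinarith
    have h4 : 1 + 8 * (κ * η) ≤ ‖1 - 4 * ((1 + κ : ℝ) : ℂ) * s‖ ^ 2 := by
      rw [h2]
      have h5 : κ * η ≤ 2 * (1 + κ) * ‖a‖ - s.re := by nlinarith
      have h6 : 0 ≤ κ * η := by positivity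
      nlinarith
    have h5 : 1 + δ ≤ ‖1 - 4 * ((1 + κ : ℝ) : ℂ) * s‖ := by
      apply le_of_sq_le_sq' _ (norm_nonneg _)
      nlinarith
    rw [abs_lt] at h1
    linarith [h1.1]
  have hminus : G (1 - κ) ≤ 1 := by
    have h1 := hG (1 - κ) (by linarith) (by linarith)
    have h2 := normSq_sub (1 - κ) s
    rw [hs2] at h2
    have h4 : ‖1 - 4 * ((1 - κ : ℝ) : ℂ) * s‖ ^ 2 ≤ 1 - 4 * (κ * η) := by
      rw [h2]
      have h5 : 2 * (1 - κ) * ‖a‖ - s.re ≤ - (κ * η) := by nlinarith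
      have h6 : 0 ≤ κ * η := by positivity
      nlinarith
    have h7 : κ * η ≤ 1 / 2 := by nlinarith
    have h5 : ‖1 - 4 * ((1 - κ : ℝ) : ℂ) * s‖ ≤ 1 - δ := by
      apply le_of_sq_le_sq' _ (by linarith)
      nlinarith
    rw [abs_lt] at h1
    linarith [h1.2]
  obtain ⟨T, hT, hGT⟩ := intermediate_value_Icc (by linarith : 1 - κ ≤ 1 + κ) hcont
    (⟨hminus, hplus⟩ : (1 : ℝ) ∈ Icc (G (1 - κ)) (G (1 + κ)))
  refine ⟨_, mem_spine hGT, ?_⟩
  rw [dist_eq_norm]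
  have h1 : a - ((T ^ 2 : ℝ) : ℂ) * a = ((1 - T ^ 2 : ℝ) : ℂ) * a := by push_cast; ring
  rw [h1, norm_mul, Complex.norm_real, Real.norm_eq_abs]
  have h2 : |1 - T ^ 2| ≤ 3 * κ := by
    rw [abs_le]
    constructor <;> nlinarith [hT.1, hT.2]
  calc |1 - T ^ 2| * ‖a‖ ≤ 3 * κ * 1 := by gcongr
    _ < ε := by linarith

/-- there are points of the spine close to zero -/
theorem small_spine {ε : ℝ} (hε : 0 < ε) : ∃ N : ℕ, ∀ n ≥ N, ∃ a' ∈ spine n, ‖a'‖ < ε := by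
  obtain ⟨t, ht, ht8, htε⟩ : ∃ t : ℝ, 0 < t ∧ t ≤ 1 / 8 ∧ t < ε :=
    ⟨min (1 / 8) (ε / 2), by positivity, min_le_left _ _, (min_le_right _ _).trans_lt (by linarith)⟩
  have ht2 : 0 < t ^ 2 := by positivity
  obtain ⟨N, hN⟩ := root_near ht2 ht2
  refine ⟨N, fun n hn => ?_⟩
  set w : ℝ → ℂ := fun ψ => ((2 * Real.log t : ℝ) : ℂ) + (ψ : ℂ) * Complex.I with hw
  have hwn : ∀ ψ, ‖Complex.exp (w ψ)‖ = t ^ 2 := by
    intro ψ
    rw [Complex.norm_exp]
    simp only [hw, Complex.add_re, Complex.ofReal_re, Complex.mul_re, Complex.I_re, mul_zero,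
      Complex.ofReal_im, Complex.I_im, mul_one, sub_self, add_zero]
    rw [two_mul, Real.exp_add, Real.exp_log ht]
    ring
  have hlog : ∀ ψ ∈ Icc 0 Real.pi, Complex.log (Complex.exp (w ψ)) = w ψ := by
    intro ψ hψ
    have him : (w ψ).im = ψ := by simp [hw]
    apply Complex.log_exp
    · rw [him]; linarith [hψ.1, Real.pi_pos]
    · rw [him]; exact hψ.2
  have hroot : ∀ ψ ∈ Icc 0 Real.pi, root n (Complex.exp (w ψ)) = Complex.exp (w ψ / (2 * n)) := by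
    intro ψ hψ
    rw [root_eq (Complex.exp_ne_zero _), hlog ψ hψ]
  have hsqrt : ∀ ψ ∈ Icc 0 Real.pi, sqrt (Complex.exp (w ψ)) = Complex.exp (w ψ / 2) := by
    intro ψ hψ
    unfold sqrt
    rw [Complex.cpow_def_of_ne_zero (Complex.exp_ne_zero _), hlog ψ hψ]
    congr 1
    ring
  set G : ℝ → ℝ := fun ψ => ‖root n (Complex.exp (w ψ)) - 4 * sqrt (Complex.exp (w ψ))‖ with hG
  have hcont : ContinuousOn G (Icc 0 Real.pi) := by
    have h1 : ContinuousOn (fun ψ => ‖Complex.exp (w ψ / (2 * n)) - 4 * Complex.exp (w ψ / 2)‖)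
        (Icc 0 Real.pi) := by
      apply Continuous.continuousOn
      simp only [hw]
      fun_prop
    refine h1.congr ?_
    intro ψ hψ
    simp only [hG]
    rw [hroot ψ hψ, hsqrt ψ hψ]
  have hpi := Real.pi_pos
  have h0 : G 0 ≤ 1 := by
    simp only [hG]
    rw [hroot 0 ⟨le_rfl, hpi.le⟩, hsqrt 0 ⟨le_rfl, hpi.le⟩]
    have h1 : w 0 = ((2 * Real.log t : ℝ) : ℂ) := by simp [hw]
    rw [h1]
    have h2 : Complex.exp (((2 * Real.log t : ℝ) : ℂ) / (2 * n)) =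
        ((Real.exp (2 * Real.log t / (2 * n)) : ℝ) : ℂ) := by push_cast; rfl
    have h3 : Complex.exp (((2 * Real.log t : ℝ) : ℂ) / 2) = ((t : ℝ) : ℂ) := by
      have : ((2 * Real.log t : ℝ) : ℂ) / 2 = ((Real.log t : ℝ) : ℂ) := by push_cast; ring
      rw [this, ← Complex.ofReal_exp, Real.exp_log ht]
    rw [h2, h3]
    have h4 : ((Real.exp (2 * Real.log t / (2 * n)) : ℝ) : ℂ) - 4 * ((t : ℝ) : ℂ) =
        ((Real.exp (2 * Real.log t / (2 * n)) - 4 * t : ℝ) : ℂ) := by push_cast; ring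
    rw [h4, Complex.norm_real, Real.norm_eq_abs, abs_le]
    have h5 : Real.exp (2 * Real.log t / (2 * n)) ≤ 1 := by
      rw [Real.exp_le_one_iff]
      apply div_nonpos_of_nonpos_of_nonneg _ (by positivity)
      have := Real.log_nonpos ht.le (by linarith)
      linarith
    have h6 := Real.exp_pos (2 * Real.log t / (2 * n))
    constructor <;> linarith
  have h1 : 1 ≤ G Real.pi := by
    have h2 := hN n hn (Complex.exp (w Real.pi)) (by rw [hwn]) (by rw [hwn]; nlinarith)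
    have h3 : sqrt (Complex.exp (w Real.pi)) = (t : ℂ) * Complex.I := by
      rw [hsqrt Real.pi ⟨hpi.le, le_rfl⟩]
      have : w Real.pi / 2 = ((Real.log t : ℝ) : ℂ) + Real.pi / 2 * Complex.I := by
        simp only [hw]; push_cast; ring
      rw [this, Complex.exp_add, ← Complex.ofReal_exp, Real.exp_log ht, Complex.exp_pi_div_two_mul_I]
    have h4 : ‖(1 : ℂ) - 4 * ((t : ℂ) * Complex.I)‖ ^ 2 = 1 + 16 * t ^ 2 := by
      rw [← Complex.normSq_eq_norm_sq, Complex.normSq_apply]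
      simp
      ring
    have h5 : 1 + t ^ 2 ≤ ‖(1 : ℂ) - 4 * ((t : ℂ) * Complex.I)‖ := by
      apply le_of_sq_le_sq' _ (norm_nonneg _)
      rw [h4]
      have : t ^ 2 ≤ 1 := by nlinarith
      nlinarith
    simp only [hG]
    rw [h3]
    have h6 : ‖(1 : ℂ) - 4 * ((t : ℂ) * Complex.I)‖ ≤
        ‖root n (Complex.exp (w Real.pi)) - 4 * ((t : ℂ) * Complex.I)‖ +
          ‖root n (Complex.exp (w Real.pi)) - 1‖ := by
      calc ‖(1 : ℂ) - 4 * ((t : ℂ) * Complex.I)‖ =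
          ‖(root n (Complex.exp (w Real.pi)) - 4 * ((t : ℂ) * Complex.I)) -
            (root n (Complex.exp (w Real.pi)) - 1)‖ := by congr 1; ring
        _ ≤ _ := norm_sub_le _ _
    linarith
  obtain ⟨ψ, hψ, hGψ⟩ := intermediate_value_Icc hpi.le hcont (⟨h0, h1⟩ : (1 : ℝ) ∈ Icc (G 0) (G Real.pi))
  refine ⟨_, mem_spine hGψ, ?_⟩
  rw [hwn]
  nlinarith

theorem near_spine {ε : ℝ} (hε : 0 < ε) : ∃ N : ℕ, ∀ n ≥ N, M n ⊆ thickening ε (spine n) := by
  obtain ⟨N1, hN1⟩ := near_spine_large hε (half_pos hε)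
  obtain ⟨N2, hN2⟩ := small_spine (half_pos hε)
  refine ⟨max N1 N2, fun n hn a ha => ?_⟩
  rw [mem_thickening_iff]
  rcases lt_or_ge ‖a‖ (ε / 2) with hlt | hge
  · obtain ⟨a', ha', h1⟩ := hN2 n ((le_max_right _ _).trans hn)
    refine ⟨a', ha', ?_⟩
    rw [dist_eq_norm]
    have := norm_sub_le a a'
    linarith
  · exact hN1 n ((le_max_left _ _).trans hn) a ha hge

/-- For every `ε > 0` there is `N ≥ 3` such that for all `n ≥ N` the boundedness locus is contained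
both in the `ε`-neighbourhood of the spine and in the `ε`-neighbourhood of the limiting cardioid. -/
theorem result : ∀ ε : ℝ, 0 < ε → ∃ N : ℕ, 3 ≤ N ∧ ∀ n : ℕ, N ≤ n →
    M n ⊆ thickening ε (spine n) ∧ M n ⊆ thickening ε cardioid := by
  intro ε hε
  obtain ⟨N1, hN1⟩ := near_spine hε
  obtain ⟨N2, hN2⟩ := near_cardioid hε
  refine ⟨max 3 (max N1 N2), le_max_left _ _, fun n hn => ⟨hN1 n ?_, hN2 n ?_⟩⟩
  · exact ((le_max_left _ _).trans (le_max_right _ _)).trans hn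
  · exact ((le_max_right _ _).trans (le_max_right _ _)).trans hn

end Pool.Agent.Results.MP_9ed304_an.BoundednessLocusNearSpine
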